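import Pool.Agent.H66.SP.Mom
import Pool.Agent.H66.SP.MomSp
import Pool.Agent.H95.SR.Full

/-!
# All but `ε` of all graphs are determined by boundedly many spectra (towards Haemers' conjecture)

For every `ε > 0` there is a number `r` such that, for all large `n` and every set `R` of at least
`r` vertices, all but a proportion `ε` of the labelled graphs `G` on `n` vertices are determined up
to isomorphism by the characteristic polynomials of the induced subgraphs `G - S`, `S ⊆ R`,
`|S| ≤ 2`.
-/

set_option autoImplicit false

open Classical in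
/-- `G` is determined by the spectra of the induced subgraphs `G - S`, `S ⊆ R`, `|S| ≤ 2`: every
graph `H` on the same vertex set for which these subgraphs have the same characteristic polynomials
as those of `G` is isomorphic to `G`, by an isomorphism fixing every vertex of `R`. -/
def Pool.Agent.Results.MP_139bb1_co.BoundedlyManySpectra.DeterminedAt {n : ℕ}
    (G : SimpleGraph (Fin n)) (R : Finset (Fin n)) : Prop :=
  ∀ H : SimpleGraph (Fin n),
    (∀ S : Finset (Fin n), S ⊆ R → S.card ≤ 2 →
      ((G.induce {v | v ∉ S}).adjMatrix ℤ).charpoly =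
        ((H.induce {v | v ∉ S}).adjMatrix ℤ).charpoly) →
    ∃ φ : G ≃g H, ∀ v ∈ R, φ v = v

namespace Pool.Agent.Results.MP_139bb1_co.BoundedlyManySpectra

open Classical Pool.Agent.H66.SP

theorem induce_charpoly {n : ℕ} (G : SimpleGraph (Fin n)) (S : Finset (Fin n)) :
    ((G.induce {v | v ∉ S}).adjMatrix ℤ).charpoly = cp G S := by
  unfold cp
  congr 1

theorem determined_of_full {n : ℕ} (G : SimpleGraph (Fin n)) (R : Finset (Fin n))
    (h : Full G (R : Set (Fin n))) : DeterminedAt G R := by
  intro H hH
  have hcp : ∀ S : Finset (Fin n), S ⊆ R → S.card ≤ 2 → cp G S = cp H S := by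
    intro S h1 h2
    rw [← induce_charpoly, ← induce_charpoly]
    exact hH S h1 h2
  obtain ⟨φ, hφ⟩ := iso_of_moments G H (R : Set (Fin n)) h (by
    intro k i hi j hj
    apply moments_eq
    intro S hS
    apply hcp
    · intro v hv
      have := hS hv
      rw [Finset.mem_insert, Finset.mem_singleton] at this
      rcases this with rfl | rfl
      · exact hi
      · exact hj
    · exact le_trans (Finset.card_le_card hS) Finset.card_le_two)
  exact ⟨φ, fun v hv => hφ v hv⟩

theorem result : ∀ ε : ℝ, 0 < ε → ∃ r N : ℕ, ∀ n : ℕ, N ≤ n → ∀ R : Finset (Fin n),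
    r ≤ R.card →
    (Nat.card {G : SimpleGraph (Fin n) // ¬ DeterminedAt G R} : ℝ) ≤
      ε * (Nat.card (SimpleGraph (Fin n)) : ℝ) := by
  intro ε hε
  obtain ⟨r, N, h⟩ := Pool.Agent.H95.SR.card_not_full ε hε
  refine ⟨r, N, fun n hn R hR => ?_⟩
  have hle : (Nat.card {G : SimpleGraph (Fin n) // ¬ DeterminedAt G R}) ≤
      ((Finset.univ : Finset (SimpleGraph (Fin n))).filter
        (fun G => ¬ Full G (R : Set (Fin n)))).card := by
    rw [Nat.card_eq_fintype_card, Fintype.card_subtype]
    apply Finset.card_le_card
    intro G hG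
    rw [Finset.mem_filter] at hG ⊢
    exact ⟨hG.1, fun h => hG.2 (determined_of_full G R h)⟩
  have hle' : (Nat.card {G : SimpleGraph (Fin n) // ¬ DeterminedAt G R} : ℝ) ≤
      (((Finset.univ : Finset (SimpleGraph (Fin n))).filter
        (fun G => ¬ Full G (R : Set (Fin n)))).card : ℝ) := by exact_mod_cast hle
  refine hle'.trans ?_
  rw [Nat.card_eq_fintype_card (α := SimpleGraph (Fin n))]
  convert h n hn R hR

end Pool.Agent.Results.MP_139bb1_co.BoundedlyManySpectra
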