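import Pool.Agent.H71.Haemers.Reduce2

/-!
# Almost all graphs have no spectral mate obtained by a local orthogonal move
(towards Haemers' conjecture)

Two graphs `G`, `H` on the same vertex set are cospectral exactly when `Qᵀ A(G) Q = A(H)` for some
real orthogonal matrix `Q` (with generalized spectra equal exactly when `Q` can moreover be chosen
with row sums `1`).  All known switching constructions use a `Q` which is a permutation matrix on
most of the vertices.  We show that for every `ε > 0`, outside an exponentially small proportion of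
all labelled graphs on `n` vertices, no non-isomorphic `H` arises from `G` through any real
orthogonal matrix which has at least `(1/2 + ε) n` columns of the form `± e_i`.
-/

set_option autoImplicit false

open Classical in
/-- `G` has a non-isomorphic mate `H`, `Qᵀ A(G) Q = A(H)`, through a real orthogonal matrix `Q`
at least `k` of whose columns have at most one nonzero entry (equivalently, are `± e_i`). -/
def Pool.Agent.Results.MP_139bb1_co.LocalMates.HasMateFixing {n : ℕ}
    (G : SimpleGraph (Fin n)) (k : ℝ) : Prop :=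
  ∃ (H : SimpleGraph (Fin n)) (Q : Matrix (Fin n) (Fin n) ℝ),
    IsEmpty (G ≃g H) ∧
    Q.transpose * Q = 1 ∧
    Q.transpose * G.adjMatrix ℝ * Q = H.adjMatrix ℝ ∧
    k ≤ (Nat.card {j : Fin n // ∃ i, ∀ i', i' ≠ i → Q i' j = 0} : ℝ)

namespace Pool.Agent.Results.MP_139bb1_co.LocalMates

open Finset Matrix Filter Topology Pool.Agent.H71.Haemers

open Classical in
lemma card_bad_le (n : ℕ) (ε : ℝ) (t : ℕ) (ht : t = ⌈(1 / 2 + ε) * n⌉₊) (s0 : ℕ) (A1 A2 : ℝ)
    (hA1 : 0 ≤ A1) (hA2 : 0 ≤ A2)
    (h1 : ∀ (S I : Finset (Fin n)) (β : I → ℤ), S.Nonempty → Disjoint S I → S.card ≤ s0 →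
      I.card ≤ S.card → ((Finset.univ.filter (Ev S I β t)).card : ℝ) ≤ A1)
    (h2 : ∀ (S I : Finset (Fin n)) (β : I → ℤ), Disjoint S I → s0 < S.card →
      I.card ≤ S.card → S.card + t ≤ n → ((Finset.univ.filter (Ev S I β t)).card : ℝ) ≤ A2) :
    (((Finset.univ : Finset (SimpleGraph (Fin n))).filter
      (fun G => HasMateFixing G ((1 / 2 + ε) * n))).card : ℝ) ≤
      (((n : ℝ) + 1) ^ s0) ^ 2 * 3 ^ s0 * A1 + 4 ^ n * 3 ^ n * A2 := by
  set bad := (Finset.univ : Finset (SimpleGraph (Fin n))).filter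
      (fun G => HasMateFixing G ((1 / 2 + ε) * n)) with hbad
  set P1 : Finset (Finset (Fin n) × Finset (Fin n)) :=
    ((Finset.univ.filter (fun S : Finset (Fin n) => S.card ≤ s0)) ×ˢ
      (Finset.univ.filter (fun S : Finset (Fin n) => S.card ≤ s0))).filter
      (fun P => P.1.Nonempty ∧ Disjoint P.1 P.2 ∧ P.2.card ≤ P.1.card) with hP1
  set P2 : Finset (Finset (Fin n) × Finset (Fin n)) :=
    Finset.univ.filter (fun P => s0 < P.1.card ∧ Disjoint P.1 P.2 ∧ P.2.card ≤ P.1.card ∧
      P.1.card + t ≤ n) with hP2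
  have hsub : bad ⊆ P1.biUnion (fun P => (Fintype.piFinset
        (fun _ : P.2 => ({-1, 0, 1} : Finset ℤ))).biUnion
          (fun β => Finset.univ.filter (Ev P.1 P.2 β t))) ∪
      P2.biUnion (fun P => (Fintype.piFinset
        (fun _ : P.2 => ({-1, 0, 1} : Finset ℤ))).biUnion
          (fun β => Finset.univ.filter (Ev P.1 P.2 β t))) := by
    intro G hG
    rw [hbad, Finset.mem_filter] at hG
    obtain ⟨H, Q, hiso, hQ, hGH, hk⟩ := hG.2
    obtain ⟨S, T, q, hSne, hST, hq, hT, hTcard⟩ := mate_reduce G H Q hQ hGH hiso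
    have htT : t ≤ T.card := by
      have hc : Nat.card {j : Fin n // ∃ i, ∀ i', i' ≠ i → Q i' j = 0} = T.card := by
        rw [hTcard]
        exact Nat.subtype_card _ (fun j => by simp)
      rw [ht, Nat.ceil_le]
      rw [hc] at hk
      exact hk
    obtain ⟨I, hIT, hIS, β, hβ, hev⟩ := exists_event G S T hST q hq hT t htT
    have hSI : Disjoint S I := Finset.disjoint_of_subset_right hIT hST
    have hSt : S.card + t ≤ n := by
      have h3 := Finset.card_union_of_disjoint hST
      have h4 := Finset.card_le_univ (S ∪ T)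
      rw [Fintype.card_fin] at h4
      omega
    rw [Finset.mem_union]
    by_cases hs : S.card ≤ s0
    · left
      rw [Finset.mem_biUnion]
      refine ⟨(S, I), ?_, ?_⟩
      · rw [hP1, Finset.mem_filter, Finset.mem_product, Finset.mem_filter, Finset.mem_filter]
        exact ⟨⟨⟨Finset.mem_univ _, hs⟩, ⟨Finset.mem_univ _, hIS.trans hs⟩⟩, hSne, hSI, hIS⟩
      · rw [Finset.mem_biUnion]
        exact ⟨β, Fintype.mem_piFinset.mpr hβ, by
          rw [Finset.mem_filter]; exact ⟨Finset.mem_univ _, hev⟩⟩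
    · right
      rw [Finset.mem_biUnion]
      refine ⟨(S, I), ?_, ?_⟩
      · rw [hP2, Finset.mem_filter]
        exact ⟨Finset.mem_univ _, not_le.mp hs, hSI, hIS, hSt⟩
      · rw [Finset.mem_biUnion]
        exact ⟨β, Fintype.mem_piFinset.mpr hβ, by
          rw [Finset.mem_filter]; exact ⟨Finset.mem_univ _, hev⟩⟩
  have hcard : (bad.card : ℝ) ≤
      ∑ P ∈ P1, ∑ β ∈ Fintype.piFinset (fun _ : P.2 => ({-1, 0, 1} : Finset ℤ)),
        ((Finset.univ.filter (Ev P.1 P.2 β t)).card : ℝ) +
      ∑ P ∈ P2, ∑ β ∈ Fintype.piFinset (fun _ : P.2 => ({-1, 0, 1} : Finset ℤ)),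
        ((Finset.univ.filter (Ev P.1 P.2 β t)).card : ℝ) := by
    have h3 : bad.card ≤
      ∑ P ∈ P1, ∑ β ∈ Fintype.piFinset (fun _ : P.2 => ({-1, 0, 1} : Finset ℤ)),
        (Finset.univ.filter (Ev P.1 P.2 β t)).card +
      ∑ P ∈ P2, ∑ β ∈ Fintype.piFinset (fun _ : P.2 => ({-1, 0, 1} : Finset ℤ)),
        (Finset.univ.filter (Ev P.1 P.2 β t)).card := by
      refine (Finset.card_le_card hsub).trans ((Finset.card_union_le _ _).trans ?_)
      apply Nat.add_le_add
      · refine Finset.card_biUnion_le.trans (Finset.sum_le_sum fun P _ => Finset.card_biUnion_le)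
      · refine Finset.card_biUnion_le.trans (Finset.sum_le_sum fun P _ => Finset.card_biUnion_le)
    exact_mod_cast h3
  refine hcard.trans (add_le_add ?_ ?_)
  · have hP1card : (P1.card : ℝ) ≤ (((n : ℝ) + 1) ^ s0) ^ 2 := by
      have h3 : P1.card ≤ ((n + 1) ^ s0) * ((n + 1) ^ s0) := by
        refine (Finset.card_filter_le _ _).trans ?_
        rw [Finset.card_product]
        have := card_small_subsets (V := Fin n) s0
        rw [Fintype.card_fin] at this
        exact Nat.mul_le_mul this this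
      have h4 : (P1.card : ℝ) ≤ (((n + 1) ^ s0 * (n + 1) ^ s0 : ℕ) : ℝ) := by exact_mod_cast h3
      refine h4.trans (le_of_eq ?_)
      push_cast
      ring
    calc ∑ P ∈ P1, ∑ β ∈ Fintype.piFinset (fun _ : P.2 => ({-1, 0, 1} : Finset ℤ)),
        ((Finset.univ.filter (Ev P.1 P.2 β t)).card : ℝ)
        ≤ ∑ P ∈ P1, (3 : ℝ) ^ s0 * A1 := by
          refine Finset.sum_le_sum fun P hP => ?_
          rw [hP1, Finset.mem_filter, Finset.mem_product, Finset.mem_filter,
            Finset.mem_filter] at hP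
          obtain ⟨⟨⟨-, hs1⟩, ⟨-, hs2⟩⟩, hne, hdis, hle⟩ := hP
          calc ∑ β ∈ Fintype.piFinset (fun _ : P.2 => ({-1, 0, 1} : Finset ℤ)),
                ((Finset.univ.filter (Ev P.1 P.2 β t)).card : ℝ)
              ≤ ∑ _β ∈ Fintype.piFinset (fun _ : P.2 => ({-1, 0, 1} : Finset ℤ)), A1 :=
                Finset.sum_le_sum fun β _ => h1 P.1 P.2 β hne hdis hs1 hle
            _ = 3 ^ P.2.card * A1 := by
                rw [Finset.sum_const, Fintype.card_piFinset, Finset.prod_const, Finset.card_univ,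
                  Fintype.card_coe, nsmul_eq_mul]
                have : ({-1, 0, 1} : Finset ℤ).card = 3 := by decide
                rw [this]
                push_cast
                ring
            _ ≤ 3 ^ s0 * A1 := by
                apply mul_le_mul_of_nonneg_right _ hA1
                exact pow_le_pow_right₀ (by norm_num) hs2
      _ = P1.card * (3 ^ s0 * A1) := by rw [Finset.sum_const, nsmul_eq_mul]
      _ ≤ (((n : ℝ) + 1) ^ s0) ^ 2 * (3 ^ s0 * A1) :=
          mul_le_mul_of_nonneg_right hP1card (by positivity)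
      _ = _ := by ring
  · have hP2card : (P2.card : ℝ) ≤ 4 ^ n := by
      have h3 : P2.card ≤ 4 ^ n := by
        refine (Finset.card_le_univ _).trans ?_
        rw [Fintype.card_prod, Fintype.card_finset, Fintype.card_fin, ← mul_pow]
        norm_num
      exact_mod_cast h3
    calc ∑ P ∈ P2, ∑ β ∈ Fintype.piFinset (fun _ : P.2 => ({-1, 0, 1} : Finset ℤ)),
        ((Finset.univ.filter (Ev P.1 P.2 β t)).card : ℝ)
        ≤ ∑ P ∈ P2, (3 : ℝ) ^ n * A2 := by
          refine Finset.sum_le_sum fun P hP => ?_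
          rw [hP2, Finset.mem_filter] at hP
          obtain ⟨-, hs, hdis, hle, htn⟩ := hP
          calc ∑ β ∈ Fintype.piFinset (fun _ : P.2 => ({-1, 0, 1} : Finset ℤ)),
                ((Finset.univ.filter (Ev P.1 P.2 β t)).card : ℝ)
              ≤ ∑ _β ∈ Fintype.piFinset (fun _ : P.2 => ({-1, 0, 1} : Finset ℤ)), A2 :=
                Finset.sum_le_sum fun β _ => h2 P.1 P.2 β hdis hs hle htn
            _ = 3 ^ P.2.card * A2 := by
                rw [Finset.sum_const, Fintype.card_piFinset, Finset.prod_const, Finset.card_univ,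
                  Fintype.card_coe, nsmul_eq_mul]
                have : ({-1, 0, 1} : Finset ℤ).card = 3 := by decide
                rw [this]
                push_cast
                ring
            _ ≤ 3 ^ n * A2 := by
                apply mul_le_mul_of_nonneg_right _ hA2
                apply pow_le_pow_right₀ (by norm_num)
                have := Finset.card_le_univ P.2
                rwa [Fintype.card_fin] at this
      _ = P2.card * (3 ^ n * A2) := by rw [Finset.sum_const, nsmul_eq_mul]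
      _ ≤ 4 ^ n * (3 ^ n * A2) := mul_le_mul_of_nonneg_right hP2card (by positivity)
      _ = _ := by ring

lemma lam_lt_one (ε : ℝ) (hε : 0 < ε) :
    (1 + (1 + 2 * ε) ^ 2) / 2 < ((1 + 2 * ε) ^ 2) ^ (1 / 2 + ε) := by
  have h1 : ((1 + 2 * ε) ^ 2 : ℝ) ^ (1 / 2 + ε) = (1 + 2 * ε) ^ (1 + 2 * ε) := by
    rw [← Real.rpow_natCast, ← Real.rpow_mul (by positivity)]
    congr 1
    push_cast
    ring
  have h2 : 1 + (1 + 2 * ε) * (2 * ε) ≤ (1 + 2 * ε) ^ (1 + 2 * ε) :=
    one_add_mul_self_le_rpow_one_add (by linarith) (by linarith)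
  rw [h1]
  nlinarith

/-- **Main theorem.**  For every `ε > 0` there are `θ < 1` and `N` such that for all `n ≥ N` at
most a proportion `θ ^ n` of the labelled graphs `G` on `n` vertices admit a non-isomorphic graph
`H` and a real orthogonal matrix `Q` with `Qᵀ A(G) Q = A(H)` such that at least `(1/2 + ε) n`
columns of `Q` are of the form `± e_i`. -/
theorem result : ∀ ε : ℝ, 0 < ε → ∃ θ : ℝ, 0 < θ ∧ θ < 1 ∧ ∃ N : ℕ, ∀ n : ℕ, N ≤ n →
    (Nat.card {G : SimpleGraph (Fin n) // HasMateFixing G ((1 / 2 + ε) * n)} : ℝ) ≤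
      θ ^ n * Nat.card (SimpleGraph (Fin n)) := by
  classical
  intro ε hε
  -- parameters
  set x : ℝ := (1 + 2 * ε) ^ 2 with hx
  have hx1 : 1 ≤ x := by rw [hx]; nlinarith
  have hx0 : 0 < x := by linarith
  set lam : ℝ := ((1 + x) / 2) / x ^ (1 / 2 + ε) with hlam
  have hlam0 : 0 < lam := by positivity
  have hlam1 : lam < 1 := by
    rw [hlam, div_lt_one (by positivity)]
    exact lam_lt_one ε hε
  set y : ℝ := (48 : ℝ) ^ (1 / (2 * ε)) with hy
  have hy1 : 1 ≤ y := Real.one_le_rpow (by norm_num) (by positivity)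
  have hy0 : 0 < y := by linarith
  have hy48 : y ^ (2 * ε) = 48 := by
    rw [hy, ← Real.rpow_mul (by norm_num), one_div, inv_mul_cancel₀ (by positivity), Real.rpow_one]
  set s0 : ℕ := ⌈9 * y ^ 2⌉₊ with hs0
  have hs0' : ∀ s : ℕ, s0 < s → 3 / Real.sqrt (s + 1) ≤ 1 / y := by
    intro s hs
    have h1 : 9 * y ^ 2 ≤ s := (Nat.le_ceil _).trans (by exact_mod_cast hs.le)
    have h2 : 3 * y ≤ Real.sqrt (s + 1) := by
      apply Real.le_sqrt_of_sq_le
      nlinarith
    have hpos : 0 < Real.sqrt ((s : ℝ) + 1) := Real.sqrt_pos.mpr (by positivity)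
    rw [div_le_div_iff₀ hpos hy0]
    linarith
  -- the bound for each n
  have hbound : ∀ n : ℕ, (Nat.card {G : SimpleGraph (Fin n) //
      HasMateFixing G ((1 / 2 + ε) * n)} : ℝ) ≤
      ((((n : ℝ) + 1) ^ s0) ^ 2 * 3 ^ s0 * x ^ s0 * lam ^ n + (1 / 2) ^ n) *
        Nat.card (SimpleGraph (Fin n)) := by
    intro n
    have hT : (0 : ℝ) ≤ Nat.card (SimpleGraph (Fin n)) := Nat.cast_nonneg _
    have hcard : Nat.card {G : SimpleGraph (Fin n) // HasMateFixing G ((1 / 2 + ε) * n)} =
      ((Finset.univ : Finset (SimpleGraph (Fin n))).filter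
        (fun G => HasMateFixing G ((1 / 2 + ε) * n))).card := by
      rw [Nat.card_eq_fintype_card, Fintype.card_subtype]
    rw [hcard]
    set t : ℕ := ⌈(1 / 2 + ε) * n⌉₊ with ht
    have htn : (1 / 2 + ε) * (n : ℝ) ≤ t := Nat.le_ceil _
    have hb := card_bad_le n ε t ht s0
      (x ^ s0 * lam ^ n * Nat.card (SimpleGraph (Fin n)))
      (2 ^ n * (1 / 48) ^ n * Nat.card (SimpleGraph (Fin n)))
      (by positivity) (by positivity) ?_ ?_
    · refine hb.trans (le_of_eq ?_)
      have e1 : (4 : ℝ) ^ n * 3 ^ n * (2 ^ n * (1 / 48) ^ n * Nat.card (SimpleGraph (Fin n))) =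
          (1 / 2) ^ n * Nat.card (SimpleGraph (Fin n)) := by
        have : (1 / 2 : ℝ) ^ n = 4 ^ n * 3 ^ n * (2 ^ n * (1 / 48) ^ n) := by
          rw [← mul_pow, ← mul_pow, ← mul_pow]
          norm_num
        rw [this]
        ring
      rw [e1]
      ring
    · -- small supports
      intro S I β hSne hSI hS hIS
      have hev := card_ev_le S I hSI β t x (1 / 2) hx1 (by norm_num) (by
        intro q hq
        obtain ⟨m0, hm0⟩ := hSne
        have h3 := card_good_rows_half q ⟨m0, hm0⟩ (hq _).1 (hq _).2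
        rw [Fintype.card_coe] at h3
        have h4 : (2 : ℝ) * ((Finset.univ.filter (fun A : Finset S => ∑ a ∈ A, q a = -1 ∨
            ∑ a ∈ A, q a = 0 ∨ ∑ a ∈ A, q a = 1)).card : ℝ) ≤ 2 ^ S.card := by
          exact_mod_cast h3
        have h5 : (Finset.univ.filter (fun A : Finset S => Tri (∑ m ∈ A, q m))) =
            (Finset.univ.filter (fun A : Finset S => ∑ a ∈ A, q a = -1 ∨
            ∑ a ∈ A, q a = 0 ∨ ∑ a ∈ A, q a = 1)) := by
          apply Finset.filter_congr
          intro A _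
          exact Iff.rfl
        rw [h5]
        linarith)
      rw [Fintype.card_fin] at hev
      have e1 : 1 + 1 / 2 * (x - 1) = (1 + x) / 2 := by ring
      rw [e1] at hev
      have hxt : x ^ ((1 / 2 + ε) * n) ≤ x ^ t := by
        rw [← Real.rpow_natCast x t]
        exact Real.rpow_le_rpow_of_exponent_le hx1 htn
      have hxpos : 0 < x ^ ((1 / 2 + ε) * (n : ℝ)) := by positivity
      have h3 : ((Finset.univ.filter (Ev S I β t)).card : ℝ) * x ^ ((1 / 2 + ε) * (n : ℝ)) ≤
          x ^ s0 * ((1 + x) / 2) ^ n * Nat.card (SimpleGraph (Fin n)) := by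
        calc ((Finset.univ.filter (Ev S I β t)).card : ℝ) * x ^ ((1 / 2 + ε) * (n : ℝ))
            ≤ ((Finset.univ.filter (Ev S I β t)).card : ℝ) * x ^ t :=
              mul_le_mul_of_nonneg_left hxt (Nat.cast_nonneg _)
          _ ≤ x ^ I.card * ((1 + x) / 2) ^ n * Nat.card (SimpleGraph (Fin n)) := hev
          _ ≤ x ^ s0 * ((1 + x) / 2) ^ n * Nat.card (SimpleGraph (Fin n)) := by
              apply mul_le_mul_of_nonneg_right _ hT
              apply mul_le_mul_of_nonneg_right _ (by positivity)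
              exact pow_le_pow_right₀ hx1 (hIS.trans hS)
      have h4 : lam ^ n = ((1 + x) / 2) ^ n / x ^ ((1 / 2 + ε) * (n : ℝ)) := by
        rw [hlam, div_pow, Real.rpow_mul hx0.le, Real.rpow_natCast]
      rw [h4, mul_div_assoc', div_mul_eq_mul_div, le_div_iff₀ hxpos]
      exact h3
    · -- large supports
      intro S I β hSI hS hIS hSt
      have hev := card_ev_le S I hSI β t y (1 / y) hy1 (by positivity) (by
        intro q hq
        have h3 := card_good_rows_le q (fun a => (hq a).1)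
        rw [Fintype.card_coe] at h3
        have h5 : (Finset.univ.filter (fun A : Finset S => Tri (∑ m ∈ A, q m))) =
            (Finset.univ.filter (fun A : Finset S => ∑ a ∈ A, q a = -1 ∨
            ∑ a ∈ A, q a = 0 ∨ ∑ a ∈ A, q a = 1)) := by
          apply Finset.filter_congr
          intro A _
          exact Iff.rfl
        rw [h5]
        refine h3.trans ?_
        exact mul_le_mul_of_nonneg_right (hs0' _ hS) (by positivity))
      rw [Fintype.card_fin] at hev
      have e1 : 1 + 1 / y * (y - 1) ≤ 2 := by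
        have : 1 + 1 / y * (y - 1) = 2 - 1 / y := by field_simp; ring
        rw [this]
        have : 0 < 1 / y := by positivity
        linarith
      have e0 : 0 ≤ 1 + 1 / y * (y - 1) := by
        have : 0 ≤ 1 / y * (y - 1) := mul_nonneg (by positivity) (by linarith)
        linarith
      have h3 : ((Finset.univ.filter (Ev S I β t)).card : ℝ) * y ^ t ≤
          y ^ I.card * (2 ^ n * Nat.card (SimpleGraph (Fin n))) := by
        refine hev.trans ?_
        rw [mul_assoc]
        apply mul_le_mul_of_nonneg_left _ (by positivity)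
        apply mul_le_mul_of_nonneg_right _ hT
        exact pow_le_pow_left₀ e0 e1 n
      have hyt : (0 : ℝ) < y ^ t := by positivity
      have h4 : ((Finset.univ.filter (Ev S I β t)).card : ℝ) ≤
          y ^ I.card / y ^ t * (2 ^ n * Nat.card (SimpleGraph (Fin n))) := by
        rw [div_mul_eq_mul_div, le_div_iff₀ hyt]
        exact h3
      have h5 : y ^ I.card / y ^ t ≤ (1 / 48 : ℝ) ^ n := by
        have e2 : y ^ I.card / y ^ t = y ^ ((I.card : ℝ) - t) := by
          rw [Real.rpow_sub hy0, Real.rpow_natCast, Real.rpow_natCast]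
        have e3 : (1 / 48 : ℝ) ^ n = y ^ (-(2 * ε) * n) := by
          rw [Real.rpow_mul hy0.le, Real.rpow_neg hy0.le, hy48, Real.rpow_natCast, one_div]
        rw [e2, e3]
        apply Real.rpow_le_rpow_of_exponent_le hy1
        have h6 : (I.card : ℝ) ≤ S.card := by exact_mod_cast hIS
        have h7 : (S.card : ℝ) + t ≤ n := by exact_mod_cast hSt
        nlinarith
      refine h4.trans ?_
      calc y ^ I.card / y ^ t * (2 ^ n * (Nat.card (SimpleGraph (Fin n)) : ℝ))
          ≤ (1 / 48 : ℝ) ^ n * (2 ^ n * Nat.card (SimpleGraph (Fin n))) :=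
            mul_le_mul_of_nonneg_right h5 (by positivity)
        _ = _ := by ring
  -- asymptotics
  set mu : ℝ := max lam (1 / 2) with hmu
  have hmu1 : mu < 1 := max_lt hlam1 (by norm_num)
  have hmu0 : 0 < mu := lt_max_of_lt_left hlam0
  set θ : ℝ := (1 + mu) / 2 with hθ
  have hθ1 : θ < 1 := by rw [hθ]; linarith
  have hθmu : mu < θ := by rw [hθ]; linarith
  have hθ0 : 0 < θ := by linarith
  have hr1 : |lam / θ| < 1 := by
    rw [abs_of_pos (by positivity), div_lt_one hθ0]
    exact lt_of_le_of_lt (le_max_left _ _) hθmu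
  have hr2 : |(1 / 2) / θ| < 1 := by
    rw [abs_of_pos (by positivity), div_lt_one hθ0]
    exact lt_of_le_of_lt (le_max_right _ _) hθmu
  have hlim := (tendsto_pow_const_mul_const_pow_of_abs_lt_one (2 * s0) hr1).const_mul
    ((2 : ℝ) ^ (2 * s0) * 3 ^ s0 * x ^ s0)
  rw [mul_zero] at hlim
  have hev1 := hlim.eventually_lt_const (show (0 : ℝ) < 1 / 2 by norm_num)
  have hev2 := (tendsto_pow_atTop_nhds_zero_of_abs_lt_one hr2).eventually_lt_const
    (show (0 : ℝ) < 1 / 2 by norm_num)
  obtain ⟨N, hN⟩ := Filter.eventually_atTop.mp ((hev1.and hev2).and (eventually_ge_atTop 1))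
  refine ⟨θ, hθ0, hθ1, N, fun n hn => ?_⟩
  obtain ⟨⟨h1, h2⟩, h3⟩ := hN n hn
  have hn1 : (1 : ℝ) ≤ n := by exact_mod_cast h3
  refine (hbound n).trans ?_
  apply mul_le_mul_of_nonneg_right _ (Nat.cast_nonneg _)
  have hθn : 0 < θ ^ n := by positivity
  have h4 : (((n : ℝ) + 1) ^ s0) ^ 2 * 3 ^ s0 * x ^ s0 * lam ^ n ≤ 1 / 2 * θ ^ n := by
    have e1 : (((n : ℝ) + 1) ^ s0) ^ 2 ≤ 2 ^ (2 * s0) * (n : ℝ) ^ (2 * s0) := by
      rw [← pow_mul, mul_comm s0 2, ← mul_pow]
      exact pow_le_pow_left₀ (by positivity) (by linarith) _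
    have e2 : lam ^ n = (lam / θ) ^ n * θ ^ n := by
      rw [← mul_pow, div_mul_cancel₀ _ hθ0.ne']
    rw [e2]
    calc (((n : ℝ) + 1) ^ s0) ^ 2 * 3 ^ s0 * x ^ s0 * ((lam / θ) ^ n * θ ^ n)
        ≤ (2 ^ (2 * s0) * (n : ℝ) ^ (2 * s0)) * 3 ^ s0 * x ^ s0 * ((lam / θ) ^ n * θ ^ n) := by
          apply mul_le_mul_of_nonneg_right _ (by positivity)
          apply mul_le_mul_of_nonneg_right _ (by positivity)
          exact mul_le_mul_of_nonneg_right e1 (by positivity)
      _ = (2 ^ (2 * s0) * 3 ^ s0 * x ^ s0 * ((n : ℝ) ^ (2 * s0) * (lam / θ) ^ n)) * θ ^ n := by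
          ring
      _ ≤ 1 / 2 * θ ^ n := mul_le_mul_of_nonneg_right h1.le hθn.le
  have h5 : (1 / 2 : ℝ) ^ n ≤ 1 / 2 * θ ^ n := by
    have e2 : (1 / 2 : ℝ) ^ n = ((1 / 2) / θ) ^ n * θ ^ n := by
      rw [← mul_pow, div_mul_cancel₀ _ hθ0.ne']
    rw [e2]
    exact mul_le_mul_of_nonneg_right h2.le hθn.le
  linarith

end Pool.Agent.Results.MP_139bb1_co.LocalMates
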