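import Pool.Agent.H95.SQ.Ari2

/-!
# The number of spectra of graphs is `2 ^ Θ(n²)` (towards Haemers' conjecture)

Up to the constant in the exponent there are as many spectra, and as many generalized spectra, of
graphs on `n` vertices as there are graphs on `n` vertices.
-/

set_option autoImplicit false

/-- the number of different characteristic polynomials of adjacency matrices of graphs on the
vertex set `{0, ..., n - 1}` -/
noncomputable def Pool.Agent.Results.MP_139bb1_co.SpectraCount.numSpectra (n : ℕ) : ℕ :=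
  open Classical in
  Nat.card {p : Polynomial ℤ // ∃ G : SimpleGraph (Fin n), (G.adjMatrix ℤ).charpoly = p}

/-- the number of different pairs (characteristic polynomial of `G`, characteristic polynomial of
the complement of `G`), `G` a graph on the vertex set `{0, ..., n - 1}` -/
noncomputable def Pool.Agent.Results.MP_139bb1_co.SpectraCount.numGeneralizedSpectra (n : ℕ) : ℕ :=
  open Classical in
  Nat.card {p : Polynomial ℤ × Polynomial ℤ // ∃ G : SimpleGraph (Fin n),
    (G.adjMatrix ℤ).charpoly = p.1 ∧ (Gᶜ.adjMatrix ℤ).charpoly = p.2}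

namespace Pool.Agent.Results.MP_139bb1_co.SpectraCount

open Classical Pool.Agent.H66.SP Pool.Agent.H95.SQ

theorem numSpectra_eq (n : ℕ) : numSpectra n = sp n := by
  unfold numSpectra sp
  apply Nat.subtype_card
  intro p
  rw [Finset.mem_image]
  constructor
  · rintro ⟨G, -, h⟩
    exact ⟨G, by rw [← h]; congr 1⟩
  · rintro ⟨G, h⟩
    exact ⟨G, Finset.mem_univ _, by rw [← h]; congr 1⟩

theorem numGeneralizedSpectra_eq (n : ℕ) : numGeneralizedSpectra n =
    ((Finset.univ : Finset (SimpleGraph (Fin n))).image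
      (fun G => ((G.adjMatrix ℤ).charpoly, (Gᶜ.adjMatrix ℤ).charpoly))).card := by
  unfold numGeneralizedSpectra
  apply Nat.subtype_card
  intro p
  rw [Finset.mem_image]
  constructor
  · rintro ⟨G, -, h⟩
    exact ⟨G, by rw [← h], by rw [← h]⟩
  · rintro ⟨G, h1, h2⟩
    exact ⟨G, Finset.mem_univ _, Prod.ext h1 h2⟩

theorem numSpectra_le (n : ℕ) : numSpectra n ≤ numGeneralizedSpectra n := by
  rw [numGeneralizedSpectra_eq, numSpectra]
  have h : Nat.card {p : Polynomial ℤ // ∃ G : SimpleGraph (Fin n), (G.adjMatrix ℤ).charpoly = p} =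
      (((Finset.univ : Finset (SimpleGraph (Fin n))).image
        (fun G => ((G.adjMatrix ℤ).charpoly, (Gᶜ.adjMatrix ℤ).charpoly))).image Prod.fst).card := by
    apply Nat.subtype_card
    intro p
    simp only [Finset.mem_image, Finset.mem_univ, true_and, exists_exists_eq_and]
  rw [h]
  exact Finset.card_image_le

theorem numGeneralizedSpectra_le (n : ℕ) : numGeneralizedSpectra n ≤ 2 ^ (n.choose 2) := by
  rw [numGeneralizedSpectra_eq]
  refine Finset.card_image_le.trans ?_
  rw [Finset.card_univ]
  exact (card_graph_fin n).le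

theorem result : ∃ c : ℝ, 0 < c ∧ ∀ n : ℕ, 2 ≤ n →
    (2 : ℝ) ^ (c * (n : ℝ) ^ 2) ≤ (numSpectra n : ℝ) ∧
      numSpectra n ≤ numGeneralizedSpectra n ∧
      (numGeneralizedSpectra n : ℝ) ≤ (2 : ℝ) ^ ((n : ℝ) ^ 2 / 2) := by
  obtain ⟨c, hc, h⟩ := sp_lower2
  refine ⟨c, hc, fun n hn => ⟨?_, numSpectra_le n, ?_⟩⟩
  · rw [numSpectra_eq]
    exact h n hn
  · have h1 : (numGeneralizedSpectra n : ℝ) ≤ (2 : ℝ) ^ (n.choose 2) := by
      exact_mod_cast numGeneralizedSpectra_le n
    refine h1.trans ?_
    rw [← Real.rpow_natCast]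
    apply Real.rpow_le_rpow_of_exponent_le (by norm_num)
    rw [Nat.cast_choose_two]
    have : (0 : ℝ) ≤ n := Nat.cast_nonneg n
    nlinarith

end Pool.Agent.Results.MP_139bb1_co.SpectraCount
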